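import Mathlib
import Pool.Agent.W313.HB.Stm
import Pool.Agent.W313.BMX.Alg
import Pool.Agent.H528R2.Legendre

/-!
# The theorem of Hasse and Minkowski for conics (task HB-HM)
-/

set_option autoImplicit false
set_option linter.all false

namespace Pool.Agent.W174.HB

open Pool.Agent.W313.BMX
open Pool.Agent.H528R2.Leg (sq_crt sq_lift)

theorem splits_norm {F : Type} [Field F] {a b b1 t s : F} (hb : b ≠ 0)
    (h : b * b1 = t ^ 2 - a * s ^ 2) (hS : Splits a b) : Splits a b1 := by
  obtain ⟨x, y, z, h0, h1⟩ := hS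
  by_cases hy : y = 0
  · subst hy
    refine ⟨x, 0, z, h0, ?_⟩
    rw [h1]; ring
  · refine ⟨z * s + x * t, b * y, z * t + a * x * s, Or.inr (Or.inl (mul_ne_zero hb hy)), ?_⟩
    have h2 : b1 * (b * y) ^ 2 = (b * b1) * (b * y ^ 2) := by ring
    have h3 : b * y ^ 2 = z ^ 2 - a * x ^ 2 := by rw [h1]; ring
    rw [h2, h, h3]; ring

theorem sq_part (b : ℤ) (hb : b ≠ 0) : ∃ c d : ℤ, Squarefree c ∧ d ≠ 0 ∧ b = c * d ^ 2 ∧
    c.natAbs ≤ b.natAbs := by
  obtain ⟨m, n, h1, h2⟩ := Nat.sq_mul_squarefree b.natAbs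
  have hn : n ≠ 0 := by
    rintro rfl
    apply hb
    rw [← Int.natAbs_eq_zero, ← h1]
    simp
  have hc : (b.sign * (m : ℤ)).natAbs = m := by
    rw [Int.natAbs_mul, Int.natAbs_sign_of_ne_zero hb]
    simp
  refine ⟨b.sign * m, n, ?_, by exact_mod_cast hn, ?_, ?_⟩
  · rw [← Int.squarefree_natAbs, hc]
    exact h2
  · have h3 : b.sign * (b.natAbs : ℤ) = b := Int.sign_mul_natAbs b
    rw [← h1] at h3
    push_cast at h3
    rw [← h3]
    have h4 : (b.sign * ((n : ℤ) ^ 2 * m)).sign = b.sign := by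
      rw [h3]
    rw [h4]
    ring
  · rw [hc, ← h1]
    have : 1 ≤ n ^ 2 := Nat.one_le_pow _ _ (Nat.pos_of_ne_zero hn)
    nlinarith

theorem local_sq (p : ℕ) [Fact p.Prime] (a b : ℤ) (hb : Squarefree b) (hpb : (p : ℤ) ∣ b)
    (h : Splits (a : ℚ_[p]) (b : ℚ_[p])) : IsSquare (a : ZMod p) := by
  obtain ⟨x, y, z, h0, h1⟩ := h
  by_cases hpa : (p : ℤ) ∣ a
  · have : (a : ZMod p) = 0 := (ZMod.intCast_zmod_eq_zero_iff_dvd a p).2 hpa
    rw [this]
    exact ⟨0, by simp⟩
  have hb0 : (b : ZMod p) = 0 := (ZMod.intCast_zmod_eq_zero_iff_dvd b p).2 hpb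
  rcases le_or_gt ‖y‖ ‖x‖ with hyx | hxy
  · have hx : x ≠ 0 := by
      rintro rfl
      have hy : y = 0 := by
        rw [norm_zero] at hyx
        exact norm_le_zero_iff.1 hyx
      subst hy
      have hz : z = 0 := by
        have : z ^ 2 = 0 := by rw [h1]; ring
        exact pow_eq_zero_iff (by norm_num) |>.1 this
      subst hz
      simp at h0
    have hxn : 0 < ‖x‖ := norm_pos_iff.2 hx
    have hu : ‖y / x‖ ≤ 1 := by
      rw [norm_div]
      exact (div_le_one hxn).2 hyx
    have hw2 : (z / x) ^ 2 = a + b * (y / x) ^ 2 := by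
      field_simp
      rw [h1]; ring
    obtain ⟨u, hu'⟩ : ∃ u : ℤ_[p], (u : ℚ_[p]) = y / x := ⟨⟨y / x, hu⟩, rfl⟩
    have hw : ‖z / x‖ ≤ 1 := by
      have h2 : ‖z / x‖ ^ 2 ≤ 1 := by
        rw [← norm_pow, hw2, ← hu']
        have : ((a : ℚ_[p]) + b * (u : ℚ_[p]) ^ 2) = (((a : ℤ_[p]) + b * u ^ 2 : ℤ_[p]) : ℚ_[p]) := by
          push_cast; ring
        rw [this]
        exact PadicInt.norm_le_one _
      by_contra hcon
      push Not at hcon
      nlinarith [norm_nonneg (z / x)]
    obtain ⟨w, hw'⟩ : ∃ w : ℤ_[p], (w : ℚ_[p]) = z / x := ⟨⟨z / x, hw⟩, rfl⟩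
    have key : w ^ 2 = (a : ℤ_[p]) + b * u ^ 2 := by
      apply Subtype.ext
      rw [← hw', ← hu'] at hw2
      push_cast
      exact hw2
    have key2 := congrArg (PadicInt.toZMod (p := p)) key
    simp only [map_pow, map_add, map_mul, map_intCast, hb0, zero_mul, add_zero] at key2
    exact ⟨PadicInt.toZMod w, by rw [← key2]; ring⟩
  · exfalso
    have hy : y ≠ 0 := by
      rintro rfl
      rw [norm_zero] at hxy
      exact absurd hxy (not_lt.2 (norm_nonneg _))
    have hyn : 0 < ‖y‖ := norm_pos_iff.2 hy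
    have hu : ‖x / y‖ < 1 := by
      rw [norm_div]
      exact (div_lt_one hyn).2 hxy
    have hw2 : (z / y) ^ 2 = a * (x / y) ^ 2 + b := by
      field_simp
      rw [h1]; ring
    have hb1 : ‖(b : ℚ_[p])‖ < 1 := by
      rw [Padic.norm_intCast_lt_one_iff]
      exact hpb
    have haone : ‖(a : ℚ_[p])‖ ≤ 1 := Padic.norm_int_le_one a
    have hau : ‖(a : ℚ_[p]) * (x / y) ^ 2‖ < 1 := by
      rw [norm_mul, norm_pow]
      have h3 : ‖x / y‖ ^ 2 < 1 := by
        have := norm_nonneg (x / y)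
        nlinarith
      have := norm_nonneg (a : ℚ_[p])
      have h4 : 0 ≤ ‖x / y‖ ^ 2 := by positivity
      nlinarith
    have hw : ‖z / y‖ < 1 := by
      have h2 : ‖z / y‖ ^ 2 < 1 := by
        rw [← norm_pow, hw2]
        exact lt_of_le_of_lt (Padic.nonarchimedean _ _) (max_lt hau hb1)
      by_contra hcon
      push Not at hcon
      nlinarith [norm_nonneg (z / y)]
    have key : ∀ v : ℚ_[p], ‖v‖ < 1 → ‖v ^ 2‖ ≤ (p : ℝ) ^ (-(2 : ℕ) : ℤ) := by
      intro v hv
      have h5 : ‖v‖ ≤ (p : ℝ) ^ (-1 : ℤ) := by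
        have := (Padic.norm_lt_pow_iff_norm_le_pow_sub_one v 0).1 (by simpa using hv)
        simpa using this
      rw [norm_pow]
      have h6 : (p : ℝ) ^ (-(2 : ℕ) : ℤ) = ((p : ℝ) ^ (-1 : ℤ)) ^ 2 := by
        rw [← zpow_natCast, ← zpow_mul]
        norm_num
      rw [h6]
      exact pow_le_pow_left₀ (norm_nonneg _) h5 2
    have hbn : ‖(b : ℚ_[p])‖ ≤ (p : ℝ) ^ (-(2 : ℕ) : ℤ) := by
      have h7 : (b : ℚ_[p]) = (z / y) ^ 2 + -(a * (x / y) ^ 2) := by
        rw [hw2]; ring
      rw [h7]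
      refine le_trans (Padic.nonarchimedean _ _) (max_le (key _ hw) ?_)
      rw [norm_neg, norm_mul]
      have h8 := key _ hu
      have h9 : 0 ≤ ‖(x / y) ^ 2‖ := norm_nonneg _
      have := norm_nonneg (a : ℚ_[p])
      nlinarith
    rw [Padic.norm_int_le_pow_iff_dvd] at hbn
    have h10 : (p : ℤ) * p ∣ b := by
      have : ((p ^ 2 : ℕ) : ℤ) = (p : ℤ) * p := by push_cast; ring
      rw [← this]
      exact hbn
    have h11 := hb _ h10
    have h12 : Prime (p : ℤ) := Nat.prime_iff_prime_int.1 (Fact.out)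
    exact h12.not_unit h11

theorem root_mod (a b : ℤ) (hb : Squarefree b)
    (h : ∀ (p : ℕ) [Fact p.Prime], Splits (a : ℚ_[p]) (b : ℚ_[p])) :
    ∃ t b1 : ℤ, b * b1 = t ^ 2 - a ∧ 2 * t.natAbs ≤ b.natAbs := by
  have hb0 : b ≠ 0 := hb.ne_zero
  have hn : Squarefree b.natAbs := Int.squarefree_natAbs.2 hb
  obtain ⟨s, hs⟩ := sq_crt a hn (by
    intro p hp hpn
    haveI : Fact p.Prime := ⟨hp⟩
    haveI : NeZero p := ⟨hp.ne_zero⟩
    apply sq_lift
    exact local_sq p a b hb (Int.natCast_dvd.2 hpn) (h p))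
  have hpos : 0 < b.natAbs := Int.natAbs_pos.2 hb0
  have e1 : (b.natAbs : ℤ) ∣ s - Int.bmod s b.natAbs := Int.dvd_self_sub_bmod
  have e2 : b ∣ (Int.bmod s b.natAbs) ^ 2 - a := by
    rw [← Int.natAbs_dvd]
    have : (Int.bmod s b.natAbs) ^ 2 - a = (s ^ 2 - a) -
        (s - Int.bmod s b.natAbs) * (s + Int.bmod s b.natAbs) := by ring
    rw [this]
    exact dvd_sub hs (e1.mul_right _)
  obtain ⟨b1, hb1⟩ := e2
  refine ⟨Int.bmod s b.natAbs, b1, hb1.symm, ?_⟩
  have e3 := Int.le_bmod (x := s) hpos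
  have e4 := Int.bmod_le (x := s) hpos
  omega

theorem descent (n : ℕ) : ∀ a b : ℤ, Squarefree a → Squarefree b → a.natAbs + b.natAbs ≤ n →
    Splits (a : ℝ) (b : ℝ) → (∀ (p : ℕ) [Fact p.Prime], Splits (a : ℚ_[p]) (b : ℚ_[p])) →
    Splits (a : ℚ) (b : ℚ) := by
  induction n using Nat.strong_induction_on with
  | _ n ih =>
    have main : ∀ a b : ℤ, Squarefree a → Squarefree b → a.natAbs + b.natAbs ≤ n →
        a.natAbs ≤ b.natAbs →
        Splits (a : ℝ) (b : ℝ) → (∀ (p : ℕ) [Fact p.Prime], Splits (a : ℚ_[p]) (b : ℚ_[p])) →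
        Splits (a : ℚ) (b : ℚ) := by
      intro a b ha hb hn hab hr hp
      have ha0 : a ≠ 0 := ha.ne_zero
      have hb0 : b ≠ 0 := hb.ne_zero
      rcases Nat.lt_or_ge b.natAbs 2 with h2 | h2
      · have h3 : a.natAbs = 1 := by omega
        have h4 : b.natAbs = 1 := by omega
        rcases Int.natAbs_eq_iff.1 h3 with h5 | h5
        · have h5' : a = 1 := by simpa using h5
          subst h5'
          exact ⟨1, 0, 1, by norm_num, by norm_num⟩
        · have h5' : a = -1 := by simpa using h5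
          rcases Int.natAbs_eq_iff.1 h4 with h6 | h6
          · have h6' : b = 1 := by simpa using h6
            subst h6'
            exact ⟨0, 1, 1, by norm_num, by norm_num⟩
          · have h6' : b = -1 := by simpa using h6
            subst h5'; subst h6'
            exfalso
            obtain ⟨x, y, z, h0, h1⟩ := hr
            push_cast at h1
            have hx : x = 0 := by nlinarith [sq_nonneg x, sq_nonneg y, sq_nonneg z]
            have hy : y = 0 := by nlinarith [sq_nonneg x, sq_nonneg y, sq_nonneg z]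
            have hz : z = 0 := by nlinarith [sq_nonneg x, sq_nonneg y, sq_nonneg z]
            subst hx; subst hy; subst hz
            simp at h0
      · obtain ⟨t, b1, h3, h4⟩ := root_mod a b hb hp
        by_cases hb1 : b1 = 0
        · subst hb1
          have h5 : a = t ^ 2 := by linarith
          refine ⟨1, 0, t, by norm_num, ?_⟩
          rw [h5]; push_cast; ring
        · obtain ⟨c, d, hc, hd, hcd, hcb⟩ := sq_part b1 hb1
          have hlt : b1.natAbs < b.natAbs := by
            have h6 : b.natAbs * b1.natAbs ≤ t.natAbs ^ 2 + a.natAbs := by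
              rw [← Int.natAbs_mul, h3, ← Int.natAbs_pow]
              exact Int.natAbs_sub_le _ _
            by_contra hcon
            push Not at hcon
            have h7 : b.natAbs * b.natAbs ≤ b.natAbs * b1.natAbs := Nat.mul_le_mul_left _ hcon
            have h8 : (2 * t.natAbs) * (2 * t.natAbs) ≤ b.natAbs * b.natAbs := Nat.mul_le_mul h4 h4
            have h9 : (2 * t.natAbs) * (2 * t.natAbs) = 4 * t.natAbs ^ 2 := by ring
            have h10 : 2 * b.natAbs ≤ b.natAbs * b.natAbs := Nat.mul_le_mul_right _ h2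
            omega
          have e3 : ∀ (F : Type) [Field F] [CharZero F], Splits (a : F) (b : F) ↔ Splits (a : F) (c : F) := by
            intro F _ _
            have f1 : (b : F) ≠ 0 := by exact_mod_cast hb0
            have f2 : (b1 : F) ≠ 0 := by exact_mod_cast hb1
            have f3 : (d : F) ≠ 0 := by exact_mod_cast hd
            have f4 : (b : F) * (b1 : F) = (t : F) ^ 2 - (a : F) * 1 ^ 2 := by
              have := congrArg (fun k : ℤ => (k : F)) h3
              push_cast at this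
              rw [this]; ring
            have f5 : (b1 : F) = c * (d : F) ^ 2 := by
              rw [hcd]; push_cast; ring
            have f6 : Splits (a : F) (b : F) ↔ Splits (a : F) (b1 : F) := by
              constructor
              · exact splits_norm f1 f4
              · exact splits_norm f2 (by rw [mul_comm]; exact f4)
            rw [f6, f5, splits_comm, splits_mul_sq f3, splits_comm]
          rw [e3 ℚ]
          refine ih (a.natAbs + c.natAbs) (by omega) a c ha hc le_rfl ((e3 ℝ).1 hr) ?_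
          intro p _
          exact (e3 ℚ_[p]).1 (hp p)
    intro a b ha hb hn hr hp
    rcases le_total a.natAbs b.natAbs with h | h
    · exact main a b ha hb hn h hr hp
    · exact splits_swap (main b a hb ha (by omega) h (splits_swap hr) (fun p _ => splits_swap (hp p)))

theorem hm_ : Pool.Agent.W313.HB.S_HM := by
  intro a b ha hb hr hp
  obtain ⟨a', c, ha', hc, hac, -⟩ := sq_part a ha
  obtain ⟨b', d, hb', hd, hbd, -⟩ := sq_part b hb
  have e : ∀ (F : Type) [Field F] [CharZero F], Splits (a : F) (b : F) ↔ Splits (a' : F) (b' : F) := by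
    intro F _ _
    have f1 : (c : F) ≠ 0 := by exact_mod_cast hc
    have f2 : (d : F) ≠ 0 := by exact_mod_cast hd
    have f3 : (a : F) = a' * (c : F) ^ 2 := by rw [hac]; push_cast; ring
    have f4 : (b : F) = b' * (d : F) ^ 2 := by rw [hbd]; push_cast; ring
    rw [f3, f4, splits_mul_sq f1, splits_comm, splits_mul_sq f2, splits_comm]
  rw [e ℚ]
  exact descent _ a' b' ha' hb' le_rfl ((e ℝ).1 hr) (fun p _ => (e ℚ_[p]).1 (hp p))

end Pool.Agent.W174.HB
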